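import Pool.Agent.P.MP_8d62fb_al.QH

/-! The Addition Theorem holds for every endomorphism `φ` of a group `G` (torsion or not) with a
normal subgroup `N` that has an ascending `φ`-invariant FC-central series and quasihamiltonian
quotient `G / N`. -/

namespace Pool.Agent.Results.MP_8d62fb_al.FCHypercentralExt

open Pool.Agent.P.MP_8d62fb_al

theorem result {G : Type*} [Group G] (φ : G →* G) (N : Subgroup G) [N.Normal]
    (hN : FCHyper φ N) (hq : Quasihamiltonian (G ⧸ N)) : AdditionTheorem φ :=
  additionTheorem_of hN hq

end Pool.Agent.Results.MP_8d62fb_al.FCHypercentralExt
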