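import Pool.Agent.P.MP_8d62fb_al.Counter

/-! The Addition Theorem fails for an automorphism of a locally finite metabelian group of
exponent six. -/

namespace Pool.Agent.Results.MP_8d62fb_al.LocallyFiniteFails

open Pool.Agent.P.MP_8d62fb_al

theorem result : ∃ (G : Type) (_ : Group G) (φ : G →* G) (H : Subgroup G) (_ : H.Normal)
    (h : H ≤ H.comap φ),
    (∀ S : Set G, S.Finite → (Subgroup.closure S : Set G).Finite) ∧ (∀ g : G, g ^ 6 = 1) ∧
    (∀ a ∈ H, ∀ b ∈ H, a * b = b * a) ∧ (∀ a b : G, a * b * a⁻¹ * b⁻¹ ∈ H) ∧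
    Function.Bijective φ ∧ H.map φ = H ∧
    halg (QuotientGroup.map H H φ h) + halg (restr φ H h) < halg φ :=
  ⟨GG, inferInstance, sh.toMonoidHom, HH, HH_normal, HH_inv, GG_locally_finite, GG_pow,
    fun a ha b hb => HH_comm a b ha hb, comm_mem_HH, sh.bijective, HH_map, counter_lt⟩

end Pool.Agent.Results.MP_8d62fb_al.LocallyFiniteFails
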